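import Pool.Agent.U398.MV.Stm4

set_option autoImplicit false

/-!
# Project MV6, package MF, first component: two close points at far shifts
-/

namespace Pool.Agent.U571.MV6

open MeasureTheory Filter Topology Set Pool.Agent.U398.MV

theorem core (f : ℝ → ℝ) (hm : Measurable f)
    (hb : ∀ a b : ℝ, ∃ M : ℝ, ∀ t ∈ Icc a b, |f t| ≤ M) (p : ℕ) (B C T0 : ℝ) (hC : 0 < C)
    (hT0 : 10 ≤ T0)
    (H : ∀ T : ℝ, T0 ≤ T → ∀ x y : ℝ, |x| ≤ B → |y| ≤ B →
      (∫ t in (3 * T / 4)..(3 * T), (f (t + x) - f (t + y)) ^ (2 * p)) ≤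
        C * T * (1 + Real.log (1 + |x - y| * Real.log T)) ^ p) :
    ∃ C' T0' : ℝ, 0 < C' ∧ 10 ≤ T0' ∧ ∀ T : ℝ, T0' ≤ T → ∀ x y : ℝ,
      |x| ≤ T / Real.log T ^ 3 + B → |x - y| ≤ B →
      (∫ t in (3 * T / 4)..(3 * T), (f (t + x) - f (t + y)) ^ (2 * p)) ≤
        C' * T * (1 + Real.log (1 + |x - y| * Real.log T)) ^ p := by
  refine ⟨C * (1 + 6 / 5 * 2 ^ p), max (2 * T0) (max (Real.exp 4) (40 * |B|)), by positivity,
    le_trans (by linarith) (le_max_left _ _), ?_⟩
  intro T hT x y hx hxy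
  have hTa : 2 * T0 ≤ T := le_trans (le_max_left _ _) hT
  have hTb : Real.exp 4 ≤ T := le_trans (le_trans (le_max_left _ _) (le_max_right _ _)) hT
  have hTc : 40 * |B| ≤ T := le_trans (le_trans (le_max_right _ _) (le_max_right _ _)) hT
  have hTpos : 0 < T := by linarith
  have hlog : 4 ≤ Real.log T := by
    rw [Real.le_log_iff_exp_le hTpos]; exact hTb
  have hB : 0 ≤ B := le_trans (abs_nonneg _) hxy
  have hBB : |B| = B := abs_of_nonneg hB
  rw [hBB] at hTc
  -- the shift is small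
  have hl3 : 64 ≤ Real.log T ^ 3 := by
    have : (4 : ℝ) ^ 3 ≤ Real.log T ^ 3 := pow_le_pow_left₀ (by norm_num) hlog 3
    linarith
  have hq : T / Real.log T ^ 3 ≤ T / 64 :=
    div_le_div_of_nonneg_left hTpos.le (by norm_num) hl3
  have hxs : |x| ≤ T / 20 := by
    have : T / 64 + T / 40 ≤ T / 20 := by linarith
    linarith
  obtain ⟨hx1, hx2⟩ := abs_le.1 hxs
  set D : ℝ := y - x with hD
  have hDB : |D| ≤ B := by rw [hD, abs_sub_comm]; exact hxy
  have hDxy : |x - y| = |(0 : ℝ) - D| := by rw [hD]; congr 1; ring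
  -- the integrand
  let h : ℝ → ℝ := fun u => (f (u + 0) - f (u + D)) ^ (2 * p)
  have hh0 : ∀ u, 0 ≤ h u := fun u => by
    simp only [h]; rw [pow_mul]; positivity
  have hhm : Measurable h :=
    ((hm.comp (measurable_id.add_const _)).sub (hm.comp (measurable_id.add_const _))).pow_const _
  have hhi : ∀ a b : ℝ, IntervalIntegrable h volume a b := by
    intro a b
    obtain ⟨M1, hM1⟩ := hb (min a b) (max a b)
    obtain ⟨M2, hM2⟩ := hb (min a b + D) (max a b + D)
    rw [intervalIntegrable_iff]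
    refine Measure.integrableOn_of_bounded (M := (M1 + M2) ^ (2 * p)) ?_ hhm.aestronglyMeasurable ?_
    · rw [uIoc]; simp
    · refine (ae_restrict_iff' measurableSet_uIoc).2 (Eventually.of_forall fun u hu => ?_)
      rw [uIoc, mem_Ioc] at hu
      have h1 : |f u| ≤ M1 := hM1 u ⟨hu.1.le, hu.2⟩
      have h2 : |f (u + D)| ≤ M2 := hM2 (u + D) ⟨by linarith [hu.1], by linarith [hu.2]⟩
      simp only [h, add_zero, norm_pow, Real.norm_eq_abs]
      refine pow_le_pow_left₀ (abs_nonneg _) ?_ _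
      calc |f u - f (u + D)| ≤ |f u| + |f (u + D)| := abs_sub _ _
        _ ≤ M1 + M2 := add_le_add h1 h2
  have hshift : (∫ t in (3 * T / 4)..(3 * T), (f (t + x) - f (t + y)) ^ (2 * p)) =
      ∫ u in (3 * T / 4 + x)..(3 * T + x), h u := by
    rw [← intervalIntegral.integral_comp_add_right (fun u => h u) x]
    congr 1
    funext t
    simp only [h]
    rw [hD]
    ring_nf
  rw [hshift]
  have hcov : (∫ u in (3 * T / 4 + x)..(3 * T + x), h u) ≤
      (∫ u in (3 * (9 / 10 * T) / 4)..(3 * (9 / 10 * T)), h u) +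
      ∫ u in (3 * (6 / 5 * T) / 4)..(3 * (6 / 5 * T)), h u := by
    calc (∫ u in (3 * T / 4 + x)..(3 * T + x), h u)
        ≤ ∫ u in (3 * (9 / 10 * T) / 4)..(3 * (6 / 5 * T)), h u :=
          intervalIntegral.integral_mono_interval (by linarith) (by linarith) (by linarith)
            (Eventually.of_forall hh0) (hhi _ _)
      _ = (∫ u in (3 * (9 / 10 * T) / 4)..(3 * (9 / 10 * T)), h u) +
          ∫ u in (3 * (9 / 10 * T))..(3 * (6 / 5 * T)), h u :=
          (intervalIntegral.integral_add_adjacent_intervals (hhi _ _) (hhi _ _)).symm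
      _ ≤ _ := by
          refine add_le_add le_rfl ?_
          exact intervalIntegral.integral_mono_interval (by linarith) (by linarith) (by linarith)
            (Eventually.of_forall hh0) (hhi _ _)
  have hI1 := H (9 / 10 * T) (by linarith) 0 D (by simpa using hB) hDB
  have hI2 := H (6 / 5 * T) (by linarith) 0 D (by simpa using hB) hDB
  rw [← hDxy] at hI1 hI2
  set w : ℝ := |x - y| with hw
  have hw0 : 0 ≤ w := abs_nonneg _
  have hlogT0 : 0 ≤ Real.log T := by linarith
  have hA0 : 1 ≤ 1 + w * Real.log T := by nlinarith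
  have hlA : 0 ≤ Real.log (1 + w * Real.log T) := Real.log_nonneg hA0
  have hl1 : Real.log (9 / 10 * T) ≤ Real.log T := Real.log_le_log (by linarith) (by linarith)
  have hl1' : 0 ≤ Real.log (9 / 10 * T) := Real.log_nonneg (by linarith)
  have hl2 : Real.log (6 / 5 * T) ≤ 2 * Real.log T := by
    rw [Real.log_mul (by norm_num) hTpos.ne']
    have : Real.log (6 / 5) ≤ 6 / 5 - 1 := Real.log_le_sub_one_of_pos (by norm_num)
    linarith
  have hl2' : 0 ≤ Real.log (6 / 5 * T) := Real.log_nonneg (by linarith)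
  have e1 : (1 + Real.log (1 + w * Real.log (9 / 10 * T))) ^ p ≤
      (1 + Real.log (1 + w * Real.log T)) ^ p := by
    have h1 : 1 ≤ 1 + w * Real.log (9 / 10 * T) := by
      have := mul_nonneg hw0 hl1'; linarith
    refine pow_le_pow_left₀ (by have := Real.log_nonneg h1; linarith) ?_ _
    have : Real.log (1 + w * Real.log (9 / 10 * T)) ≤ Real.log (1 + w * Real.log T) :=
      Real.log_le_log (by linarith) (by
        have := mul_le_mul_of_nonneg_left hl1 hw0; linarith)
    linarith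
  have e2 : (1 + Real.log (1 + w * Real.log (6 / 5 * T))) ^ p ≤
      2 ^ p * (1 + Real.log (1 + w * Real.log T)) ^ p := by
    rw [← mul_pow]
    have h1 : 1 ≤ 1 + w * Real.log (6 / 5 * T) := by
      have := mul_nonneg hw0 hl2'; linarith
    refine pow_le_pow_left₀ (by have := Real.log_nonneg h1; linarith) ?_ _
    have h3 : 1 + w * Real.log (6 / 5 * T) ≤ 2 * (1 + w * Real.log T) := by
      have := mul_le_mul_of_nonneg_left hl2 hw0; linarith
    have h4 : Real.log (1 + w * Real.log (6 / 5 * T)) ≤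
        Real.log 2 + Real.log (1 + w * Real.log T) := by
      rw [← Real.log_mul (by norm_num) (by linarith)]
      exact Real.log_le_log (by linarith) h3
    have h5 : Real.log 2 ≤ 1 := by
      have := Real.log_two_lt_d9; linarith
    linarith
  set P : ℝ := (1 + Real.log (1 + w * Real.log T)) ^ p with hP
  have hP0 : 0 ≤ P := by rw [hP]; positivity
  calc (∫ u in (3 * T / 4 + x)..(3 * T + x), h u) ≤ _ := hcov
    _ ≤ C * (9 / 10 * T) * P + C * (6 / 5 * T) * (2 ^ p * P) := by
        refine add_le_add (hI1.trans ?_) (hI2.trans ?_)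
        · exact mul_le_mul_of_nonneg_left e1 (by positivity)
        · exact mul_le_mul_of_nonneg_left e2 (by positivity)
    _ ≤ C * (1 + 6 / 5 * 2 ^ p) * T * P := by
        have : 0 ≤ C * T * P := by positivity
        nlinarith

theorem Mf_cont : Continuous Mf := by
  have h : Mf = fun t => (fun u : ℝ => u * Real.log u - u) (t / (2 * Real.pi)) := by
    funext t; unfold Mf; ring
  rw [h]
  exact (Real.continuous_mul_log.sub continuous_id).comp (continuous_id.div_const _)

theorem meas_sg {N : ℝ → ℕ} (hN : Monotone N) : Measurable (sg N) := by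
  unfold sg
  exact (measurable_from_top.comp hN.measurable).sub Mf_cont.measurable

theorem bdd_sg {N : ℝ → ℕ} (hN : Monotone N) (a b : ℝ) :
    ∃ M : ℝ, ∀ t ∈ Icc a b, |sg N t| ≤ M := by
  obtain ⟨C, hC⟩ := (isCompact_Icc (a := a) (b := b)).exists_bound_of_continuousOn
    Mf_cont.continuousOn
  refine ⟨N b + |C|, ?_⟩
  intro t ht
  have h3 := hC t ht
  have h4 : (N t : ℝ) ≤ N b := by exact_mod_cast hN ht.2
  have h5 : (0 : ℝ) ≤ N t := Nat.cast_nonneg _
  unfold sg
  rw [Real.norm_eq_abs] at h3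
  rw [abs_le] at h3 ⊢
  have h6 := le_abs_self C
  constructor <;> linarith [h3.1, h3.2, (Nat.cast_nonneg (N b) : (0 : ℝ) ≤ N b)]

/-- the first component of `MomF N` -/
theorem momF1 (N : ℝ → ℕ) (hm : Monotone N) (hM : Mom N) :
    ∀ (p : ℕ) (B : ℝ), ∃ C T0 : ℝ, 0 < C ∧ 10 ≤ T0 ∧ ∀ T : ℝ, T0 ≤ T → ∀ x y : ℝ,
      |x| ≤ T / Real.log T ^ 3 + B → |x - y| ≤ B →
      (∫ t in (3 * T / 4)..(3 * T), (sg N (t + x) - sg N (t + y)) ^ (2 * p)) ≤
        C * T * (1 + Real.log (1 + |x - y| * Real.log T)) ^ p := by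
  intro p B
  obtain ⟨C, T0, hC, hT0, H⟩ := hM.1 p B
  exact core (sg N) (meas_sg hm) (bdd_sg hm) p B C T0 hC hT0 H

end Pool.Agent.U571.MV6
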